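import Pool.Agent.H337R3.Sid7

set_option autoImplicit false
set_option linter.unusedSectionVars false

namespace Pool.Agent.V11203.SG

open Finset MeasureTheory
open scoped ENNReal NNReal

universe u

section Char

variable {Ω : Type*} [MeasurableSpace Ω] (μ : Measure Ω) [IsProbabilityMeasure μ]
  {Γ : Type*} [AddCommGroup Γ] (χ : Γ → Ω → ℂ)

/-- an orthonormal system of characters -/
structure CharSystem : Prop where
  meas : ∀ γ, Measurable (χ γ)
  add : ∀ γ δ x, χ (γ + δ) x = χ γ x * χ δ x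
  norm : ∀ γ x, ‖χ γ x‖ = 1
  int : ∀ γ, γ ≠ 0 → ∫ x, χ γ x ∂μ = 0

variable {μ χ}

theorem CharSystem.zero (h : CharSystem μ χ) (x : Ω) : χ 0 x = 1 := by
  have h1 := h.add 0 0 x
  rw [add_zero] at h1
  have h2 : χ 0 x ≠ 0 := by
    intro h0
    have := h.norm 0 x
    rw [h0] at this
    simp at this
  field_simp at h1
  exact h1.symm

theorem CharSystem.neg (h : CharSystem μ χ) (γ : Γ) (x : Ω) :
    χ (-γ) x = (starRingEnd ℂ) (χ γ x) := by
  have h1 := h.add γ (-γ) x
  rw [add_neg_cancel, h.zero] at h1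
  have h2 : χ γ x * (starRingEnd ℂ) (χ γ x) = 1 := by
    rw [Complex.mul_conj, Complex.normSq_eq_norm_sq, h.norm]
    simp
  have h3 : χ γ x ≠ 0 := by
    intro h0
    rw [h0] at h1
    simp at h1
  have h4 : χ γ x * χ (-γ) x = χ γ x * (starRingEnd ℂ) (χ γ x) := by rw [← h1, h2]
  exact mul_left_cancel₀ h3 h4

theorem CharSystem.integrable (h : CharSystem μ χ) (γ : Γ) : Integrable (χ γ) μ := by
  refine Integrable.of_bound (h.meas γ).aestronglyMeasurable 1 ?_
  exact Filter.Eventually.of_forall (fun x => (h.norm γ x).le)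

theorem CharSystem.sum (h : CharSystem μ χ) {ι : Type*} (A : Finset ι) (g : ι → Γ) (x : Ω) :
    χ (∑ i ∈ A, g i) x = ∏ i ∈ A, χ (g i) x := by
  classical
  induction A using Finset.induction_on with
  | empty => simp [h.zero]
  | insert i A hi ih => rw [Finset.sum_insert hi, Finset.prod_insert hi, h.add, ih]

/-- the sum over a finite subgroup of characters is `|M|` times an indicator. -/
theorem CharSystem.sum_subgroup (h : CharSystem μ χ) (M : AddSubgroup Γ) [Fintype M] (x : Ω) :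
    (∑ γ : M, χ γ x = Fintype.card M ∧ ∀ γ ∈ M, χ γ x = 1) ∨ ∑ γ : M, χ γ x = 0 := by
  by_cases h1 : ∀ γ ∈ M, χ γ x = 1
  · left
    refine ⟨?_, h1⟩
    rw [Finset.sum_congr rfl (fun (γ : M) _ => h1 γ γ.2)]
    simp
  · right
    push Not at h1
    obtain ⟨δ, hδ, hne⟩ := h1
    have h2 : ∑ γ : M, χ γ x = χ δ x * ∑ γ : M, χ γ x := by
      rw [Finset.mul_sum]
      rw [← Equiv.sum_comp (Equiv.addLeft (⟨δ, hδ⟩ : M))]
      apply Finset.sum_congr rfl
      intro γ _
      rw [← h.add]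
      rfl
    have h3 : (χ δ x - 1) * ∑ γ : M, χ γ x = 0 := by
      rw [sub_mul, one_mul, ← h2, sub_self]
    rcases mul_eq_zero.mp h3 with h4 | h4
    · exact absurd (sub_eq_zero.mp h4) hne
    · exact h4

theorem CharSystem.int_subgroup (h : CharSystem μ χ) (M : AddSubgroup Γ) [Fintype M] :
    ∫ x, ∑ γ : M, χ γ x ∂μ = 1 := by
  classical
  rw [integral_finsetSum _ (fun (γ : M) _ => h.integrable (γ : Γ))]
  rw [Finset.sum_eq_single (0 : M)]
  · have : ∀ x, χ ((0 : M) : Γ) x = 1 := fun x => by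
      rw [ZeroMemClass.coe_zero]; exact h.zero x
    simp_rw [this]
    simp
  · intro γ _ hγ
    apply h.int
    intro h0
    exact hγ (Subtype.ext h0)
  · intro h0
    exact absurd (Finset.mem_univ _) h0

end Char

/-- the `ψ₂` norm -/
noncomputable def psi2 {Ω : Type*} [MeasurableSpace Ω] (μ : Measure Ω) (f : Ω → ℂ) : ℝ :=
  sInf {c : ℝ | 0 < c ∧
    ∫⁻ x, ENNReal.ofReal (Real.exp (‖f x‖ ^ 2 / c ^ 2)) ∂μ ≤ ENNReal.ofReal (Real.exp 1)}

theorem psi2_le {Ω : Type*} [MeasurableSpace Ω] (μ : Measure Ω) (f : Ω → ℂ) (c : ℝ) (hc : 0 < c)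
    (h : ∫⁻ x, ENNReal.ofReal (Real.exp (‖f x‖ ^ 2 / c ^ 2)) ∂μ ≤ ENNReal.ofReal (Real.exp 1)) :
    psi2 μ f ≤ c :=
  csInf_le ⟨0, fun c hc => hc.1.le⟩ ⟨hc, h⟩

theorem lint_of_psi2_lt {Ω : Type*} [MeasurableSpace Ω] (μ : Measure Ω) [IsProbabilityMeasure μ]
    (f : Ω → ℂ) (B : ℝ) (hB : ∀ x, ‖f x‖ ≤ B) (c : ℝ)
    (h : psi2 μ f < c) :
    ∫⁻ x, ENNReal.ofReal (Real.exp (‖f x‖ ^ 2 / c ^ 2)) ∂μ ≤ ENNReal.ofReal (Real.exp 1) := by
  have hne : {c : ℝ | 0 < c ∧
    ∫⁻ x, ENNReal.ofReal (Real.exp (‖f x‖ ^ 2 / c ^ 2)) ∂μ ≤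
      ENNReal.ofReal (Real.exp 1)}.Nonempty := by
    refine ⟨max B 1, by positivity, ?_⟩
    calc ∫⁻ x, ENNReal.ofReal (Real.exp (‖f x‖ ^ 2 / (max B 1) ^ 2)) ∂μ
        ≤ ∫⁻ x, ENNReal.ofReal (Real.exp 1) ∂μ := by
          apply lintegral_mono
          intro x
          apply ENNReal.ofReal_le_ofReal
          apply Real.exp_le_exp.mpr
          rw [div_le_one (by positivity)]
          have h1 : ‖f x‖ ≤ max B 1 := (hB x).trans (le_max_left _ _)
          exact pow_le_pow_left₀ (norm_nonneg _) h1 2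
      _ = ENNReal.ofReal (Real.exp 1) := by simp
  obtain ⟨c', ⟨hc'0, hc'⟩, hlt⟩ := exists_lt_of_csInf_lt hne h
  refine le_trans ?_ hc'
  apply lintegral_mono
  intro x
  apply ENNReal.ofReal_le_ofReal
  apply Real.exp_le_exp.mpr
  apply div_le_div_of_nonneg_left (by positivity) (by positivity)
  exact pow_le_pow_left₀ hc'0.le hlt.le 2

/-- subgaussian sets of characters -/
def Subgaussian {Ω : Type*} [MeasurableSpace Ω] (μ : Measure Ω) {Γ : Type*} (χ : Γ → Ω → ℂ)
    (Λ : Set Γ) : Prop :=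
  ∃ C : ℝ, ∀ (A : Finset Γ) (a : Γ → ℂ), (A : Set Γ) ⊆ Λ →
    psi2 μ (fun x => ∑ γ ∈ A, a γ * χ γ x) ≤ C * Real.sqrt (∑ γ ∈ A, ‖a γ‖ ^ 2)

open Pool.Agent.H337R3.Sid in
/-- A subgaussian set generates large groups. -/
theorem small_of_subgaussian {Ω : Type*} [MeasurableSpace Ω] (μ : Measure Ω)
    [IsProbabilityMeasure μ] {Γ : Type*} [AddCommGroup Γ] [DecidableEq Γ] (χ : Γ → Ω → ℂ)
    (h : CharSystem μ χ) (Λ : Set Γ)
    (hfin : ∀ D : Finset Γ, (D : Set Γ) ⊆ Λ → Finite (AddSubgroup.closure (D : Set Γ)))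
    (h0 : (0 : Γ) ∉ Λ) (hΛ : Subgaussian μ χ Λ) :
    ∃ K : ℕ, Small K Λ := by
  obtain ⟨C, hC⟩ := hΛ
  set C' := max C 1 with hC'
  have hC'1 : 1 ≤ C' := le_max_right _ _
  have hC'0 : 0 < C' := by linarith
  refine ⟨⌈12 * C' ^ 2⌉₊, ?_⟩
  intro A hA
  rcases A.eq_empty_or_nonempty with hAe | hAne
  · subst hAe
    simp
  have hfinM := hfin A hA
  set M := AddSubgroup.closure (A : Set Γ) with hM
  have : Fintype M := Fintype.ofFinite M
  have hcard : Nat.card M = Fintype.card M := Nat.card_eq_fintype_card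
  rw [hcard]
  set n : ℝ := (A.card : ℝ) with hn
  have hn1 : 1 ≤ n := by
    rw [hn]
    exact_mod_cast Finset.card_pos.mpr hAne
  -- the norm of the sum
  have h1 : psi2 μ (fun x => ∑ γ ∈ A, (1 : ℂ) * χ γ x) ≤ C' * Real.sqrt n := by
    refine (hC A (fun _ => 1) hA).trans ?_
    have : ∑ γ ∈ A, ‖(1 : ℂ)‖ ^ 2 = n := by simp [hn]
    rw [this]
    exact mul_le_mul_of_nonneg_right (le_max_left _ _) (Real.sqrt_nonneg _)
  have h2 : psi2 μ (fun x => ∑ γ ∈ A, (1 : ℂ) * χ γ x) < 2 * (C' * Real.sqrt n) := by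
    have : 0 < C' * Real.sqrt n := by positivity
    linarith
  have h3 := lint_of_psi2_lt μ _ n (fun x => by
    refine (norm_sum_le _ _).trans ?_
    have : ∑ γ ∈ A, ‖(1 : ℂ) * χ γ x‖ = n := by
      simp [h.norm, hn]
    exact this.le) _ h2
  -- lower bound
  have h4 : ENNReal.ofReal (Real.exp (n / (4 * C' ^ 2)) / Fintype.card M) ≤
      ∫⁻ x, ENNReal.ofReal (Real.exp (‖∑ γ ∈ A, (1 : ℂ) * χ γ x‖ ^ 2 /
        (2 * (C' * Real.sqrt n)) ^ 2)) ∂μ := by
    have hMpos : (0 : ℝ) < Fintype.card M := by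
      exact_mod_cast Fintype.card_pos
    have hint : ∫ x, (∑ γ : M, χ γ x).re ∂μ = 1 := by
      have h5 := h.int_subgroup M
      have h6 : ∫ x, (∑ γ : M, χ γ x).re ∂μ = (∫ x, ∑ γ : M, χ γ x ∂μ).re := by
        have h7 := integral_re (𝕜 := ℂ) (μ := μ) (f := fun x => ∑ γ : M, χ γ x)
          (integrable_finsetSum _ (fun γ _ => h.integrable γ))
        exact h7
      rw [h6, h5]
      simp
    have hkey : Real.exp (n / (4 * C' ^ 2)) / Fintype.card M =
        ∫ x, Real.exp (n / (4 * C' ^ 2)) / Fintype.card M * (∑ γ : M, χ γ x).re ∂μ := by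
      rw [integral_const_mul, hint, mul_one]
    have hpt : ∀ x, Real.exp (n / (4 * C' ^ 2)) / Fintype.card M * (∑ γ : M, χ γ x).re ≤
        Real.exp (‖∑ γ ∈ A, (1 : ℂ) * χ γ x‖ ^ 2 / (2 * (C' * Real.sqrt n)) ^ 2) ∧
        0 ≤ Real.exp (n / (4 * C' ^ 2)) / Fintype.card M * (∑ γ : M, χ γ x).re := by
      intro x
      rcases h.sum_subgroup M x with ⟨h5, h6⟩ | h5
      · have h7 : ∑ γ ∈ A, (1 : ℂ) * χ γ x = (n : ℂ) := by
          rw [Finset.sum_congr rfl (fun γ hγ => by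
            rw [h6 γ (AddSubgroup.subset_closure (Finset.mem_coe.mpr hγ))])]
          simp [hn]
        have h8 : ‖(n : ℂ)‖ = n := by
          rw [Complex.norm_real, Real.norm_eq_abs, abs_of_nonneg (by linarith)]
        rw [h5, h7, h8]
        have h9 : n ^ 2 / (2 * (C' * Real.sqrt n)) ^ 2 = n / (4 * C' ^ 2) := by
          rw [mul_pow, mul_pow, Real.sq_sqrt (by linarith)]
          field_simp
          ring
        rw [h9]
        constructor
        · have : ((Fintype.card M : ℂ)).re = Fintype.card M := by simp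
          rw [this, div_mul_cancel₀ _ hMpos.ne']
        · have : ((Fintype.card M : ℂ)).re = Fintype.card M := by simp
          rw [this]
          positivity
      · rw [h5]
        simp
        positivity
    rw [hkey]
    rw [ofReal_integral_eq_lintegral_ofReal]
    · apply lintegral_mono
      intro x
      exact ENNReal.ofReal_le_ofReal (hpt x).1
    · apply Integrable.const_mul
      have h7 : Integrable (fun x => ∑ γ : M, χ γ x) μ :=
        integrable_finsetSum _ (fun γ _ => h.integrable γ)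
      exact h7.re
    · exact Filter.Eventually.of_forall (fun x => (hpt x).2)
  have h5 := h4.trans h3
  rw [ENNReal.ofReal_le_ofReal_iff (by positivity)] at h5
  have hM2 : 2 ≤ Fintype.card M := by
    obtain ⟨γ, hγ⟩ := hAne
    have hγM : γ ∈ M := AddSubgroup.subset_closure (Finset.mem_coe.mpr hγ)
    have hγ0 : γ ≠ 0 := fun h => h0 (h ▸ hA (Finset.mem_coe.mpr hγ))
    have : Nontrivial M := ⟨⟨⟨γ, hγM⟩, 0, fun h => hγ0 (congrArg Subtype.val h)⟩⟩
    exact Fintype.one_lt_card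
  have hM2' : (2 : ℝ) ≤ Fintype.card M := by exact_mod_cast hM2
  have hexp1 : Real.exp 1 ≤ (Fintype.card M : ℝ) ^ 2 := by
    have h6 : Real.exp 1 < 2.7182818286 := Real.exp_one_lt_d9
    nlinarith
  have h6 : Real.exp (n / (4 * C' ^ 2)) ≤ (Fintype.card M : ℝ) ^ 3 := by
    rw [div_le_iff₀ (by positivity)] at h5
    calc Real.exp (n / (4 * C' ^ 2)) ≤ Real.exp 1 * Fintype.card M := h5
      _ ≤ (Fintype.card M : ℝ) ^ 2 * Fintype.card M := by
          exact mul_le_mul_of_nonneg_right hexp1 (by positivity)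
      _ = (Fintype.card M : ℝ) ^ 3 := by ring
  -- take logarithms
  have h7 : n / (4 * C' ^ 2) ≤ 3 * Real.log (Fintype.card M) := by
    have := Real.log_le_log (Real.exp_pos _) h6
    rw [Real.log_exp, Real.log_pow] at this
    push_cast at this
    exact this
  have h8 : n ≤ 12 * C' ^ 2 * Real.log (Fintype.card M) := by
    rw [div_le_iff₀ (by positivity)] at h7
    linarith
  have hlogM : 0 ≤ Real.log (Fintype.card M) := Real.log_nonneg (by linarith)
  have h9 : (2 : ℝ) ^ A.card ≤ (Fintype.card M : ℝ) ^ ⌈12 * C' ^ 2⌉₊ := by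
    rw [← Real.log_le_log_iff (by positivity) (by positivity), Real.log_pow, Real.log_pow]
    have h10 : Real.log 2 ≤ 1 := by
      have := Real.log_two_lt_d9
      linarith
    calc (A.card : ℝ) * Real.log 2 ≤ n * 1 := by
          exact mul_le_mul_of_nonneg_left h10 (by linarith)
      _ ≤ 12 * C' ^ 2 * Real.log (Fintype.card M) := by linarith
      _ ≤ (⌈12 * C' ^ 2⌉₊ : ℝ) * Real.log (Fintype.card M) :=
          mul_le_mul_of_nonneg_right (Nat.le_ceil _) hlogM
  exact_mod_cast h9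

end Pool.Agent.V11203.SG
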