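import Pool.Agent.V11203.SG.Abs

set_option autoImplicit false
set_option linter.unusedSectionVars false

namespace Pool.Agent.V11203.SG

open Finset MeasureTheory
open scoped ENNReal NNReal

section Riesz

variable {Ω : Type*} [MeasurableSpace Ω] {μ : Measure Ω} [IsProbabilityMeasure μ]
  {Γ : Type*} [AddCommGroup Γ] [DecidableEq Γ] {χ : Γ → Ω → ℂ}

/-- the three coefficients -/
def T3 : Finset ℤ := {-1, 0, 1}

theorem mem_T3 (z : ℤ) : z ∈ T3 ↔ z = -1 ∨ z = 0 ∨ z = 1 := by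
  unfold T3
  simp

/-- finite quasi-independence -/
def FinQI (A : Finset Γ) : Prop :=
  ∀ ξ : Γ → ℤ, (∀ x ∈ A, ξ x ∈ T3) → ∑ x ∈ A, ξ x • x = 0 → ∀ x ∈ A, ξ x = 0

theorem riesz_int (h : CharSystem μ χ) (A : Finset Γ) (hA : FinQI A) (c : Γ → ℤ → ℂ) :
    ∫ x, ∏ γ ∈ A, ∑ ξ ∈ T3, c γ ξ * χ (ξ • γ) x ∂μ = ∏ γ ∈ A, c γ 0 := by
  classical
  have h1 : ∀ x, ∏ γ ∈ A, ∑ ξ ∈ T3, c γ ξ * χ (ξ • γ) x =
      ∑ p ∈ A.pi (fun _ => T3), (∏ γ ∈ A.attach, c γ.1 (p γ.1 γ.2)) *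
        χ (∑ γ ∈ A.attach, p γ.1 γ.2 • γ.1) x := by
    intro x
    rw [Finset.prod_sum]
    apply Finset.sum_congr rfl
    intro p _
    rw [Finset.prod_mul_distrib, h.sum]
  simp_rw [h1]
  rw [integral_finsetSum _ (fun p _ => (h.integrable _).const_mul _)]
  simp_rw [integral_const_mul]
  have hT0 : (fun (γ : Γ) (_ : γ ∈ A) => (0 : ℤ)) ∈ A.pi (fun _ => T3) := by
    rw [Finset.mem_pi]
    intro γ _
    rw [mem_T3]
    right; left; rfl
  rw [Finset.sum_eq_single_of_mem _ hT0]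
  · have h2 : ∑ γ ∈ A.attach, (0 : ℤ) • γ.1 = (0 : Γ) := by simp
    rw [h2]
    simp_rw [h.zero]
    rw [Finset.prod_attach A (fun γ => c γ 0)]
    simp
  · intro p hp hne
    rw [Finset.mem_pi] at hp
    have h2 : ∑ γ ∈ A.attach, p γ.1 γ.2 • γ.1 ≠ (0 : Γ) := by
      intro h0
      apply hne
      let ξ : Γ → ℤ := fun x => if hx : x ∈ A then p x hx else 0
      have h3 := hA ξ (fun x hx => by
        show (if hx : x ∈ A then p x hx else 0) ∈ T3
        rw [dif_pos hx]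
        exact hp x hx) (by
        rw [← h0, ← Finset.sum_attach A (fun x => ξ x • x)]
        apply Finset.sum_congr rfl
        intro x _
        have : ξ x.1 = p x.1 x.2 := dif_pos x.2
        rw [this])
      funext x hx
      have h4 := h3 x hx
      have : ξ x = p x hx := dif_pos hx
      rw [← this]
      exact h4
    rw [h.int _ h2, mul_zero]

/-- coefficients of the Riesz product -/
noncomputable def rc (z : ℂ) (ξ : ℤ) : ℂ :=
  if ξ = 0 then (Real.cosh ‖z‖ : ℂ)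
  else if ξ = 1 then (Real.sinh ‖z‖ / 2 : ℂ) * (z / ‖z‖)
  else (Real.sinh ‖z‖ / 2 : ℂ) * (starRingEnd ℂ) (z / ‖z‖)

theorem rc_sum (h : CharSystem μ χ) (z : ℂ) (γ : Γ) (x : Ω) :
    ∑ ξ ∈ T3, rc z ξ * χ (ξ • γ) x =
      ((Real.cosh ‖z‖ + Real.sinh ‖z‖ * (z / ‖z‖ * χ γ x).re : ℝ) : ℂ) := by
  unfold T3
  rw [Finset.sum_insert (by decide), Finset.sum_insert (by decide), Finset.sum_singleton]
  unfold rc
  rw [if_neg (by decide), if_neg (by decide), if_pos rfl, if_neg (by decide), if_pos rfl]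
  rw [neg_smul, one_smul, zero_smul, h.neg, h.zero]
  have h1 : ((z / ‖z‖ * χ γ x).re : ℂ) =
      ((z / ‖z‖ * χ γ x) + (starRingEnd ℂ) (z / ‖z‖ * χ γ x)) / 2 := by
    rw [Complex.re_eq_add_conj]
  push_cast
  rw [h1, map_mul]
  ring

theorem exp_le_riesz (h : CharSystem μ χ) (z : ℂ) (γ : Γ) (x : Ω) :
    Real.exp (z * χ γ x).re ≤ Real.cosh ‖z‖ + Real.sinh ‖z‖ * (z / ‖z‖ * χ γ x).re := by
  rcases eq_or_ne z 0 with hz | hz
  · subst hz
    simp
  · have hz' : 0 < ‖z‖ := norm_pos_iff.mpr hz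
    have h1 : (z * χ γ x).re = (z / ‖z‖ * χ γ x).re * ‖z‖ := by
      have : z * χ γ x = (z / ‖z‖ * χ γ x) * (‖z‖ : ℂ) := by
        have hne : (‖z‖ : ℂ) ≠ 0 := by exact_mod_cast hz'.ne'
        field_simp
      conv_lhs => rw [this]
      rw [Complex.re_mul_ofReal]
    rw [h1]
    have h2 : |(z / ‖z‖ * χ γ x).re| ≤ 1 := by
      refine (Complex.abs_re_le_norm _).trans ?_
      rw [norm_mul, h.norm, norm_div, Complex.norm_real, norm_norm, div_self hz'.ne', mul_one]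
    have h3 := Real.exp_mul_le_cosh_add_mul_sinh h2 ‖z‖
    linarith

theorem laplace (h : CharSystem μ χ) (A : Finset Γ) (hA : FinQI A) (a : Γ → ℂ) :
    ∫⁻ x, ENNReal.ofReal (Real.exp (∑ γ ∈ A, a γ * χ γ x).re) ∂μ ≤
      ENNReal.ofReal (Real.exp ((∑ γ ∈ A, ‖a γ‖ ^ 2) / 2)) := by
  set P : Ω → ℝ := fun x => ∏ γ ∈ A,
    (Real.cosh ‖a γ‖ + Real.sinh ‖a γ‖ * (a γ / ‖a γ‖ * χ γ x).re) with hP
  have hpt : ∀ x, Real.exp (∑ γ ∈ A, a γ * χ γ x).re ≤ P x := by
    intro x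
    rw [Complex.re_sum, Real.exp_sum]
    apply Finset.prod_le_prod
    · intro γ _; positivity
    · intro γ _
      exact exp_le_riesz h (a γ) γ x
  have hPC : ∀ x, ((P x : ℝ) : ℂ) = ∏ γ ∈ A, ∑ ξ ∈ T3, rc (a γ) ξ * χ (ξ • γ) x := by
    intro x
    rw [hP]
    push_cast
    apply Finset.prod_congr rfl
    intro γ _
    rw [rc_sum h]
    push_cast
    rfl
  have hmeasC : Measurable (fun x => ∏ γ ∈ A, ∑ ξ ∈ T3, rc (a γ) ξ * χ (ξ • γ) x) := by
    apply Finset.measurable_prod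
    intro γ _
    apply Finset.measurable_sum
    intro ξ _
    exact (h.meas _).const_mul _
  have hbound : ∀ x, ‖∏ γ ∈ A, ∑ ξ ∈ T3, rc (a γ) ξ * χ (ξ • γ) x‖ ≤
      ∏ γ ∈ A, ∑ ξ ∈ T3, ‖rc (a γ) ξ‖ := by
    intro x
    rw [norm_prod]
    apply Finset.prod_le_prod
    · intro γ _; positivity
    · intro γ _
      refine (norm_sum_le _ _).trans ?_
      apply Finset.sum_le_sum
      intro ξ _
      rw [norm_mul, h.norm, mul_one]
  have hintC : Integrable (fun x => ∏ γ ∈ A, ∑ ξ ∈ T3, rc (a γ) ξ * χ (ξ • γ) x) μ :=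
    Integrable.of_bound hmeasC.aestronglyMeasurable _
      (Filter.Eventually.of_forall hbound)
  have hPint : Integrable P μ := by
    have h1 := hintC.re
    have h2 : (fun x => RCLike.re (∏ γ ∈ A, ∑ ξ ∈ T3, rc (a γ) ξ * χ (ξ • γ) x)) = P := by
      funext x
      rw [← hPC]
      simp
    rw [h2] at h1
    exact h1
  have hPval : ∫ x, P x ∂μ = ∏ γ ∈ A, Real.cosh ‖a γ‖ := by
    have h1 : ((∫ x, P x ∂μ : ℝ) : ℂ) = ∫ x, ((P x : ℝ) : ℂ) ∂μ := (integral_ofReal).symm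
    have h2 : ((∫ x, P x ∂μ : ℝ) : ℂ) = ((∏ γ ∈ A, Real.cosh ‖a γ‖ : ℝ) : ℂ) := by
      rw [h1]
      simp_rw [hPC]
      rw [riesz_int h A hA]
      unfold rc
      push_cast
      simp
    exact_mod_cast h2
  calc ∫⁻ x, ENNReal.ofReal (Real.exp (∑ γ ∈ A, a γ * χ γ x).re) ∂μ
      ≤ ∫⁻ x, ENNReal.ofReal (P x) ∂μ :=
        lintegral_mono (fun x => ENNReal.ofReal_le_ofReal (hpt x))
    _ = ENNReal.ofReal (∫ x, P x ∂μ) := by
        rw [ofReal_integral_eq_lintegral_ofReal hPint]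
        exact Filter.Eventually.of_forall (fun x => (Real.exp_pos _).le.trans (hpt x))
    _ = ENNReal.ofReal (∏ γ ∈ A, Real.cosh ‖a γ‖) := by rw [hPval]
    _ ≤ _ := by
        apply ENNReal.ofReal_le_ofReal
        rw [Finset.sum_div, Real.exp_sum]
        apply Finset.prod_le_prod
        · intro γ _; positivity
        · intro γ _
          exact Real.cosh_le_exp_half_sq _

end Riesz

/-- the Gaussian identity -/
theorem gauss1 (x : ℝ) :
    ∫⁻ g : ℝ, ENNReal.ofReal (Real.exp (-g ^ 2) * Real.exp (g * x)) =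
      ENNReal.ofReal (Real.sqrt Real.pi * Real.exp (x ^ 2 / 4)) := by
  have h1 : ∀ g : ℝ, Real.exp (-g ^ 2) * Real.exp (g * x) =
      Real.exp (x ^ 2 / 4) * Real.exp (-1 * (g - x / 2) ^ 2) := by
    intro g
    rw [← Real.exp_add, ← Real.exp_add]
    congr 1
    ring
  simp_rw [h1]
  have h2 : Integrable (fun g : ℝ => Real.exp (-1 * (g - x / 2) ^ 2)) :=
    (integrable_exp_neg_mul_sq (b := 1) one_pos).comp_sub_right (x / 2)
  rw [← ofReal_integral_eq_lintegral_ofReal (h2.const_mul _)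
    (Filter.Eventually.of_forall (fun g => by positivity))]
  rw [integral_const_mul]
  have h3 : ∫ g : ℝ, Real.exp (-1 * (g - x / 2) ^ 2) = Real.sqrt Real.pi := by
    rw [integral_sub_right_eq_self (fun g : ℝ => Real.exp (-1 * g ^ 2)) (x / 2),
      integral_gaussian]
    simp
  rw [h3, mul_comm]

theorem gauss2 : ∫⁻ g : ℝ, ENNReal.ofReal (Real.exp (-g ^ 2) * Real.exp (g ^ 2 / 2)) =
      ENNReal.ofReal (Real.sqrt Real.pi * Real.sqrt 2) := by
  have h1 : ∀ g : ℝ, Real.exp (-g ^ 2) * Real.exp (g ^ 2 / 2) =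
      Real.exp (-(1/2) * g ^ 2) := by
    intro g
    rw [← Real.exp_add]
    congr 1
    ring
  simp_rw [h1]
  rw [← ofReal_integral_eq_lintegral_ofReal (integrable_exp_neg_mul_sq (by norm_num))
    (Filter.Eventually.of_forall (fun g => by positivity))]
  rw [integral_gaussian, ← Real.sqrt_mul Real.pi_pos.le]
  congr 2
  ring

/-- from exponential moments to square exponential moments -/
theorem sq_exp {Ω : Type*} [MeasurableSpace Ω] {μ : Measure Ω} [IsProbabilityMeasure μ]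
    (X : Ω → ℝ) (hX : Measurable X)
    (h : ∀ g : ℝ, ∫⁻ x, ENNReal.ofReal (Real.exp (g * X x)) ∂μ ≤
      ENNReal.ofReal (Real.exp (g ^ 2 / 2))) :
    ∫⁻ x, ENNReal.ofReal (Real.exp (X x ^ 2 / 4)) ∂μ ≤ ENNReal.ofReal (Real.sqrt 2) := by
  have hpi : 0 < Real.sqrt Real.pi := Real.sqrt_pos.mpr Real.pi_pos
  have h1 : ENNReal.ofReal (Real.sqrt Real.pi) * ∫⁻ x, ENNReal.ofReal (Real.exp (X x ^ 2 / 4)) ∂μ ≤
      ENNReal.ofReal (Real.sqrt Real.pi) * ENNReal.ofReal (Real.sqrt 2) := by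
    calc ENNReal.ofReal (Real.sqrt Real.pi) * ∫⁻ x, ENNReal.ofReal (Real.exp (X x ^ 2 / 4)) ∂μ
        = ∫⁻ x, ENNReal.ofReal (Real.sqrt Real.pi) * ENNReal.ofReal (Real.exp (X x ^ 2 / 4)) ∂μ := by
          rw [lintegral_const_mul]
          fun_prop
      _ = ∫⁻ x, (∫⁻ g : ℝ, ENNReal.ofReal (Real.exp (-g ^ 2) * Real.exp (g * X x))) ∂μ := by
          apply lintegral_congr
          intro x
          rw [gauss1, ENNReal.ofReal_mul hpi.le]
      _ = ∫⁻ g : ℝ, ∫⁻ x, ENNReal.ofReal (Real.exp (-g ^ 2) * Real.exp (g * X x)) ∂μ := by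
          rw [lintegral_lintegral_swap]
          apply Measurable.aemeasurable
          have : Measurable (fun p : Ω × ℝ => Real.exp (-p.2 ^ 2) * Real.exp (p.2 * X p.1)) := by
            fun_prop
          exact this.ennreal_ofReal
      _ = ∫⁻ g : ℝ, ENNReal.ofReal (Real.exp (-g ^ 2)) *
            ∫⁻ x, ENNReal.ofReal (Real.exp (g * X x)) ∂μ := by
          apply lintegral_congr
          intro g
          rw [← lintegral_const_mul]
          · apply lintegral_congr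
            intro x
            rw [ENNReal.ofReal_mul (Real.exp_pos _).le]
          · fun_prop
      _ ≤ ∫⁻ g : ℝ, ENNReal.ofReal (Real.exp (-g ^ 2)) * ENNReal.ofReal (Real.exp (g ^ 2 / 2)) := by
          apply lintegral_mono
          intro g
          exact mul_le_mul_right (h g) _
      _ = ENNReal.ofReal (Real.sqrt Real.pi) * ENNReal.ofReal (Real.sqrt 2) := by
          rw [← ENNReal.ofReal_mul hpi.le, ← gauss2]
          apply lintegral_congr
          intro g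
          rw [ENNReal.ofReal_mul (Real.exp_pos _).le]
  exact (ENNReal.mul_le_mul_iff_right (by positivity) ENNReal.ofReal_ne_top).mp h1

end Pool.Agent.V11203.SG
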