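import Pool.Agent.V11203.SG.Conv

set_option autoImplicit false
set_option linter.unusedSectionVars false

namespace Pool.Agent.V11203.SG

open Finset MeasureTheory Pool.Agent.H337R3.Sid
open scoped ENNReal NNReal

section Union

variable {Ω : Type*} [MeasurableSpace Ω] {μ : Measure Ω} [IsProbabilityMeasure μ]
  {Γ : Type*} [AddCommGroup Γ] [DecidableEq Γ] {χ : Γ → Ω → ℂ}

theorem CharSystem.measurable_sum (h : CharSystem μ χ) (A : Finset Γ) (a : Γ → ℂ) :
    Measurable (fun x => ∑ γ ∈ A, a γ * χ γ x) := by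
  apply Finset.measurable_sum
  intro γ _
  exact (h.meas γ).const_mul _

theorem finqi (Q : Set Γ) (hQ : QI Q) (A : Finset Γ) (hA : (A : Set Γ) ⊆ Q) : FinQI A := by
  intro ξ hξ hrel
  exact hQ A hA ξ (fun x hx => (mem_T3 _).mp (hξ x hx)) hrel

/-- the bound for one quasi-independent finite set -/
theorem qi_bound (h : CharSystem μ χ) (A : Finset Γ) (hA : FinQI A) (a : Γ → ℂ) (S : ℝ)
    (hS : 0 < S) (haS : ∑ γ ∈ A, ‖a γ‖ ^ 2 ≤ S) :
    ∫⁻ x, ENNReal.ofReal (Real.exp (‖∑ γ ∈ A, a γ * χ γ x‖ ^ 2 / (8 * S))) ∂μ ≤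
      ENNReal.ofReal (Real.sqrt 2) := by
  have hsq : Real.sqrt S ^ 2 = S := Real.sq_sqrt hS.le
  have hsS : 0 < Real.sqrt S := Real.sqrt_pos.mpr hS
  -- rotations
  have key : ∀ w : ℂ, ‖w‖ = 1 →
      ∫⁻ x, ENNReal.ofReal (Real.exp (((w * ∑ γ ∈ A, a γ * χ γ x).re / Real.sqrt S) ^ 2 / 4)) ∂μ ≤
        ENNReal.ofReal (Real.sqrt 2) := by
    intro w hw
    apply sq_exp (fun x => (w * ∑ γ ∈ A, a γ * χ γ x).re / Real.sqrt S)
    · have := h.measurable_sum A a
      fun_prop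
    · intro g
      have h1 := laplace h A hA (fun γ => ((g / Real.sqrt S : ℝ) : ℂ) * w * a γ)
      have h2 : ∀ x, (∑ γ ∈ A, ((g / Real.sqrt S : ℝ) : ℂ) * w * a γ * χ γ x).re =
          g * ((w * ∑ γ ∈ A, a γ * χ γ x).re / Real.sqrt S) := by
        intro x
        have h3 : ∑ γ ∈ A, ((g / Real.sqrt S : ℝ) : ℂ) * w * a γ * χ γ x =
            ((g / Real.sqrt S : ℝ) : ℂ) * (w * ∑ γ ∈ A, a γ * χ γ x) := by
          rw [Finset.mul_sum, Finset.mul_sum]
          apply Finset.sum_congr rfl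
          intro γ _
          ring
        rw [h3, Complex.re_ofReal_mul]
        ring
      simp_rw [h2] at h1
      refine h1.trans ?_
      apply ENNReal.ofReal_le_ofReal
      apply Real.exp_le_exp.mpr
      apply div_le_div_of_nonneg_right _ (by norm_num)
      have h4 : ∀ γ ∈ A, ‖((g / Real.sqrt S : ℝ) : ℂ) * w * a γ‖ ^ 2 = g ^ 2 / S * ‖a γ‖ ^ 2 := by
        intro γ _
        rw [norm_mul, norm_mul, hw, mul_one, Complex.norm_real, mul_pow, Real.norm_eq_abs,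
          sq_abs, div_pow, hsq]
      rw [Finset.sum_congr rfl h4, ← Finset.mul_sum]
      calc g ^ 2 / S * ∑ γ ∈ A, ‖a γ‖ ^ 2 ≤ g ^ 2 / S * S :=
            mul_le_mul_of_nonneg_left haS (by positivity)
        _ = g ^ 2 := by field_simp
  have k1 := key 1 (by simp)
  have k2 := key (-Complex.I) (by simp)
  have hpt : ∀ x, Real.exp (‖∑ γ ∈ A, a γ * χ γ x‖ ^ 2 / (8 * S)) ≤
      (1 / 2) * Real.exp (((1 * ∑ γ ∈ A, a γ * χ γ x).re / Real.sqrt S) ^ 2 / 4) +
      (1 / 2) * Real.exp (((-Complex.I * ∑ γ ∈ A, a γ * χ γ x).re / Real.sqrt S) ^ 2 / 4) := by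
    intro x
    set z := ∑ γ ∈ A, a γ * χ γ x
    have h1 : (-Complex.I * z).re = z.im := by simp
    have h2 : ‖z‖ ^ 2 = z.re ^ 2 + z.im ^ 2 := by
      rw [← Complex.normSq_eq_norm_sq, Complex.normSq_apply]; ring
    rw [h1, one_mul, h2, div_pow, div_pow, hsq]
    have h3 : (z.re ^ 2 + z.im ^ 2) / (8 * S) = (1/2) * (z.re ^ 2 / S / 4) +
        (1/2) * (z.im ^ 2 / S / 4) := by
      field_simp
      ring
    rw [h3]
    have h4 := convexOn_exp.2 (Set.mem_univ (z.re ^ 2 / S / 4)) (Set.mem_univ (z.im ^ 2 / S / 4))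
      (by norm_num : (0 : ℝ) ≤ 1/2) (by norm_num : (0 : ℝ) ≤ 1/2) (by norm_num)
    exact h4
  have hm := h.measurable_sum A a
  calc ∫⁻ x, ENNReal.ofReal (Real.exp (‖∑ γ ∈ A, a γ * χ γ x‖ ^ 2 / (8 * S))) ∂μ
      ≤ ∫⁻ x, (ENNReal.ofReal (1 / 2) *
          ENNReal.ofReal (Real.exp (((1 * ∑ γ ∈ A, a γ * χ γ x).re / Real.sqrt S) ^ 2 / 4)) +
        ENNReal.ofReal (1 / 2) * ENNReal.ofReal
          (Real.exp (((-Complex.I * ∑ γ ∈ A, a γ * χ γ x).re / Real.sqrt S) ^ 2 / 4))) ∂μ := by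
        apply lintegral_mono
        intro x
        beta_reduce
        rw [← ENNReal.ofReal_mul (by norm_num), ← ENNReal.ofReal_mul (by norm_num),
          ← ENNReal.ofReal_add (by positivity) (by positivity)]
        exact ENNReal.ofReal_le_ofReal (hpt x)
    _ = ENNReal.ofReal (1 / 2) * ∫⁻ x,
          ENNReal.ofReal (Real.exp (((1 * ∑ γ ∈ A, a γ * χ γ x).re / Real.sqrt S) ^ 2 / 4)) ∂μ +
        ENNReal.ofReal (1 / 2) * ∫⁻ x, ENNReal.ofReal
          (Real.exp (((-Complex.I * ∑ γ ∈ A, a γ * χ γ x).re / Real.sqrt S) ^ 2 / 4)) ∂μ := by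
        rw [lintegral_add_left, lintegral_const_mul, lintegral_const_mul]
        · fun_prop
        · fun_prop
        · fun_prop
    _ ≤ ENNReal.ofReal (1 / 2) * ENNReal.ofReal (Real.sqrt 2) +
        ENNReal.ofReal (1 / 2) * ENNReal.ofReal (Real.sqrt 2) :=
        add_le_add (mul_le_mul_right k1 _) (mul_le_mul_right k2 _)
    _ = ENNReal.ofReal (Real.sqrt 2) := by
        rw [← ENNReal.ofReal_mul (by norm_num), ← ENNReal.ofReal_add (by positivity) (by positivity)]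
        congr 1
        ring

/-- Finite unions of quasi-independent sets are subgaussian. -/
theorem subgaussian_union (h : CharSystem μ χ) (k : ℕ) (Q : Fin k → Set Γ) (hQ : ∀ i, QI (Q i))
    (Λ : Set Γ) (hΛ : Λ = ⋃ i, Q i) : Subgaussian μ χ Λ := by
  classical
  refine ⟨Real.sqrt 8 * k, ?_⟩
  intro A a hA
  set S := ∑ γ ∈ A, ‖a γ‖ ^ 2 with hS
  have hS0 : 0 ≤ S := Finset.sum_nonneg (fun γ _ => by positivity)
  rcases hS0.eq_or_lt with hS1 | hS1
  · -- all coefficients vanish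
    have h1 : ∀ γ ∈ A, a γ = 0 := by
      intro γ hγ
      have := (Finset.sum_eq_zero_iff_of_nonneg (fun γ _ => by positivity)).mp hS1.symm γ hγ
      have h2 : ‖a γ‖ = 0 := by
        exact pow_eq_zero_iff (two_ne_zero) |>.mp this
      exact norm_eq_zero.mp h2
    have h2 : (fun x => ∑ γ ∈ A, a γ * χ γ x) = fun _ => 0 := by
      funext x
      apply Finset.sum_eq_zero
      intro γ hγ
      rw [h1 γ hγ, zero_mul]
    rw [h2, ← hS1, Real.sqrt_zero, mul_zero]
    apply le_of_forall_pos_le_add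
    intro ε hε
    rw [zero_add]
    apply psi2_le _ _ _ hε
    simp
  -- `k` is positive
  have hAne : A.Nonempty := by
    rw [Finset.nonempty_iff_ne_empty]
    rintro rfl
    simp [hS] at hS1
  have hmem : ∀ γ ∈ A, ∃ i, γ ∈ Q i := by
    intro γ hγ
    have := hA (Finset.mem_coe.mpr hγ)
    rw [hΛ] at this
    exact Set.mem_iUnion.mp this
  have hk : 0 < k := by
    obtain ⟨γ, hγ⟩ := hAne
    obtain ⟨i, _⟩ := hmem γ hγ
    exact Fin.pos i
  have hkR : (0 : ℝ) < k := by exact_mod_cast hk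
  let col : Γ → Fin k := fun γ => if hγ : ∃ i, γ ∈ Q i then hγ.choose else ⟨0, hk⟩
  have hcol : ∀ γ ∈ A, γ ∈ Q (col γ) := by
    intro γ hγ
    have h1 : col γ = (hmem γ hγ).choose := dif_pos (hmem γ hγ)
    rw [h1]
    exact (hmem γ hγ).choose_spec
  let B : Fin k → Finset Γ := fun i => A.filter (fun γ => col γ = i)
  have hB : ∀ i, FinQI (B i) := by
    intro i
    apply finqi (Q i) (hQ i)
    intro γ hγ
    have h1 := Finset.mem_filter.mp (Finset.mem_coe.mp hγ)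
    have h2 := hcol γ h1.1
    rw [h1.2] at h2
    exact h2
  have hBS : ∀ i, ∑ γ ∈ B i, ‖a γ‖ ^ 2 ≤ S := fun i =>
    Finset.sum_le_sum_of_subset_of_nonneg (Finset.filter_subset _ _) (fun γ _ _ => by positivity)
  have hdec : ∀ x, ∑ γ ∈ A, a γ * χ γ x = ∑ i, ∑ γ ∈ B i, a γ * χ γ x := by
    intro x
    exact (Finset.sum_fiberwise A col (fun γ => a γ * χ γ x)).symm
  have hc : 0 < Real.sqrt 8 * k * Real.sqrt S := by
    have := Real.sqrt_pos.mpr hS1
    positivity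
  apply psi2_le _ _ _ hc
  have hpt : ∀ x, Real.exp (‖∑ γ ∈ A, a γ * χ γ x‖ ^ 2 / (Real.sqrt 8 * k * Real.sqrt S) ^ 2) ≤
      ∑ i : Fin k, (1 / k : ℝ) * Real.exp (‖∑ γ ∈ B i, a γ * χ γ x‖ ^ 2 / (8 * S)) := by
    intro x
    have h1 : ‖∑ γ ∈ A, a γ * χ γ x‖ ^ 2 ≤ k * ∑ i, ‖∑ γ ∈ B i, a γ * χ γ x‖ ^ 2 := by
      rw [hdec x]
      calc ‖∑ i, ∑ γ ∈ B i, a γ * χ γ x‖ ^ 2 ≤ (∑ i, ‖∑ γ ∈ B i, a γ * χ γ x‖) ^ 2 :=
            pow_le_pow_left₀ (norm_nonneg _) (norm_sum_le _ _) 2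
        _ ≤ k * ∑ i, ‖∑ γ ∈ B i, a γ * χ γ x‖ ^ 2 := by
            have := sq_sum_le_card_mul_sum_sq (s := (Finset.univ : Finset (Fin k)))
              (f := fun i => ‖∑ γ ∈ B i, a γ * χ γ x‖)
            rw [Finset.card_univ, Fintype.card_fin] at this
            exact this
    have h2 : (Real.sqrt 8 * k * Real.sqrt S) ^ 2 = 8 * k ^ 2 * S := by
      rw [mul_pow, mul_pow, Real.sq_sqrt (by norm_num), Real.sq_sqrt hS1.le]
    rw [h2]
    have h3 : ‖∑ γ ∈ A, a γ * χ γ x‖ ^ 2 / (8 * k ^ 2 * S) ≤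
        ∑ i : Fin k, (1 / k : ℝ) * (‖∑ γ ∈ B i, a γ * χ γ x‖ ^ 2 / (8 * S)) := by
      rw [← Finset.mul_sum, ← Finset.sum_div]
      calc ‖∑ γ ∈ A, a γ * χ γ x‖ ^ 2 / (8 * k ^ 2 * S) ≤
          (k * ∑ i, ‖∑ γ ∈ B i, a γ * χ γ x‖ ^ 2) / (8 * k ^ 2 * S) :=
            div_le_div_of_nonneg_right h1 (by positivity)
        _ = 1 / k * ((∑ i, ‖∑ γ ∈ B i, a γ * χ γ x‖ ^ 2) / (8 * S)) := by
            field_simp
    refine (Real.exp_le_exp.mpr h3).trans ?_
    have h4 := convexOn_exp.map_sum_le (t := (Finset.univ : Finset (Fin k)))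
      (w := fun _ => (1 / k : ℝ)) (p := fun i => ‖∑ γ ∈ B i, a γ * χ γ x‖ ^ 2 / (8 * S))
      (fun i _ => by positivity) (by
        rw [Finset.sum_const, Finset.card_univ, Fintype.card_fin, nsmul_eq_mul]
        field_simp) (fun i _ => Set.mem_univ _)
    simpa only [smul_eq_mul] using h4
  calc ∫⁻ x, ENNReal.ofReal (Real.exp (‖∑ γ ∈ A, a γ * χ γ x‖ ^ 2 /
        (Real.sqrt 8 * k * Real.sqrt S) ^ 2)) ∂μ
      ≤ ∫⁻ x, ∑ i : Fin k, ENNReal.ofReal (1 / k) *
          ENNReal.ofReal (Real.exp (‖∑ γ ∈ B i, a γ * χ γ x‖ ^ 2 / (8 * S))) ∂μ := by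
        apply lintegral_mono
        intro x
        beta_reduce
        refine (ENNReal.ofReal_le_ofReal (hpt x)).trans ?_
        rw [ENNReal.ofReal_sum_of_nonneg (fun i _ => by positivity)]
        apply Finset.sum_le_sum
        intro i _
        rw [ENNReal.ofReal_mul (by positivity)]
    _ = ∑ i : Fin k, ENNReal.ofReal (1 / k) *
          ∫⁻ x, ENNReal.ofReal (Real.exp (‖∑ γ ∈ B i, a γ * χ γ x‖ ^ 2 / (8 * S))) ∂μ := by
        rw [lintegral_finsetSum]
        · apply Finset.sum_congr rfl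
          intro i _
          rw [lintegral_const_mul]
          have hm := h.measurable_sum (B i) a
          fun_prop
        · intro i _
          have hm := h.measurable_sum (B i) a
          fun_prop
    _ ≤ ∑ i : Fin k, ENNReal.ofReal (1 / k) * ENNReal.ofReal (Real.sqrt 2) := by
        apply Finset.sum_le_sum
        intro i _
        exact mul_le_mul_right (qi_bound h (B i) (hB i) a S hS1 (hBS i)) _
    _ = ENNReal.ofReal (Real.sqrt 2) := by
        rw [Finset.sum_const, Finset.card_univ, Fintype.card_fin, nsmul_eq_mul, ← mul_assoc]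
        have : (k : ℝ≥0∞) * ENNReal.ofReal (1 / k) = 1 := by
          rw [← ENNReal.ofReal_natCast, ← ENNReal.ofReal_mul (by positivity)]
          rw [mul_one_div_cancel hkR.ne', ENNReal.ofReal_one]
        rw [this, one_mul]
    _ ≤ ENNReal.ofReal (Real.exp 1) := by
        apply ENNReal.ofReal_le_ofReal
        have h1 : (2 : ℝ) ≤ Real.exp 1 := by
          have := Real.add_one_le_exp 1
          linarith
        have h2 : Real.sqrt 2 ≤ 2 := by
          rw [Real.sqrt_le_left (by norm_num)]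
          norm_num
        linarith

/-- **Main theorem, abstract form**: a set of nonzero characters of bounded order is subgaussian
iff it is a finite union of quasi-independent sets. -/
theorem main (h : CharSystem μ χ) (n : ℕ) (hn : 0 < n) (Λ : Set Γ) (h0 : (0 : Γ) ∉ Λ)
    (hexp : ∀ x ∈ Λ, n • x = 0) :
    Subgaussian μ χ Λ ↔ ∃ (k : ℕ) (Q : Fin k → Set Γ), (∀ i, QI (Q i)) ∧ Λ = ⋃ i, Q i := by
  constructor
  · intro hS
    obtain ⟨K, hK⟩ := small_of_subgaussian μ χ h Λ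
      (fun D hD => closure_finite n hn D (fun x hx => hexp x (hD (Finset.mem_coe.mpr hx)))) h0 hS
    obtain ⟨Q, hQ, hΛ⟩ := finite_union n.primeFactorsList
      (fun q hq => Nat.prime_of_mem_primeFactorsList hq) K Λ
      (by rw [Nat.prod_primeFactorsList hn.ne']; exact hexp) hK
    exact ⟨_, Q, hQ, hΛ⟩
  · rintro ⟨k, Q, hQ, hΛ⟩
    exact subgaussian_union h k Q hQ Λ hΛ

end Union

end Pool.Agent.V11203.SG
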